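import Pool.Agent.N704.RS.I

/-!
# MP_e3daee_pr: a Brownian motion that is a non-regular semimartingale in a larger filtration

Let `W` be a Brownian motion, `F` its (augmented) natural filtration,
`H t = sup_{s ≥ t} (W s - s / 2)` and `G t` the (augmented) σ-field generated by
`W s, s ≤ t` and `H t`.  Then `G` is a filtration larger than `F`,
`W = N + A` with `A t = 2 (H t - H 0) + t` and `N` a continuous `G`-martingale.
The nonincreasing process `H` decreases only at the times `t` with `W t - t / 2 = H t`; these
form a Lebesgue null set, and so `A` is not absolutely continuous with respect to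
`[W, W]_t = [N, N]_t = t`.
-/

namespace Pool.Agent.Results.MP_e3daee_pr.NotRegular

open MeasureTheory ProbabilityTheory Filter Topology
open Pool.Agent.N704.RS Pool.Agent.TH970
open scoped ENNReal NNReal

/-- There are a complete probability space, two filtrations `F ≤ G` containing all null sets at
time `0`, and a continuous `F`-martingale `M` (a Brownian motion) with a decomposition `M = N + A`,
`N` a continuous `G`-martingale, `A` a continuous `G`-adapted process with `A 0 = 0` and paths
of finite variation (differences of nondecreasing functions), with `[M, M]_t = [N, N]_t = t`, such that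
almost surely the path of `A` is not absolutely continuous with respect to `[M, M]`. -/
theorem result : ∃ (Ω : Type) (mΩ : MeasurableSpace Ω) (P : Measure Ω)
    (F G : Filtration ℝ≥0 mΩ) (M N A : ℝ≥0 → Ω → ℝ),
    IsProbabilityMeasure P ∧ P.IsComplete ∧
    (∀ S : Set Ω, P S = 0 → MeasurableSet[F 0] S) ∧
    (∀ S : Set Ω, P S = 0 → MeasurableSet[G 0] S) ∧
    (∀ t, F t ≤ G t) ∧
    -- `M` is a Brownian motion and a continuous martingale with respect to `F`
    (∀ ω, Continuous fun t => M t ω) ∧ (∀ ω, M 0 ω = 0) ∧ IsPreBrownianReal M P ∧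
    Martingale M F P ∧
    -- `N` is a continuous martingale with respect to `G`
    (∀ ω, Continuous fun t => N t ω) ∧ Martingale N G P ∧
    -- `A` is continuous, `G`-adapted, null at `0` and of locally finite variation
    (∀ ω, Continuous fun t => A t ω) ∧ (∀ t, Measurable[G t] (A t)) ∧ (∀ ω, A 0 ω = 0) ∧
    (∀ ω, ∃ f g : ℝ≥0 → ℝ, Monotone f ∧ Monotone g ∧ ∀ t, A t ω = f t - g t) ∧
    -- `M = N + A` is a semimartingale with respect to `G`
    (∀ t ω, M t ω = N t ω + A t ω) ∧
    -- `[M, M]_t = [N, N]_t = t`
    IsQV P M (fun t _ => (t : ℝ)) ∧ IsQV P N (fun t _ => (t : ℝ)) ∧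
    -- `A` is not absolutely continuous with respect to `[M, M]`
    ∀ᵐ ω ∂P, ¬ ACwrt (fun t => A t ω) (fun t => (t : ℝ)) := by
  obtain ⟨Ω, mΩ, P, hP, hc, X, hX⟩ := exists_CBM_complete
  refine ⟨Ω, mΩ, P, FF hX, GG hX, X, fun t ω => NN (path X ω) t, fun t ω => AA (path X ω) t,
    hP, hc, fun S hS => null_aug hS, fun S hS => null_aug hS, fun t => ?_, hX.cont, hX.zero, hX.pre,
    martingale_X hX, fun ω => continuous_NN (hX.cont ω), martingale_N hX,
    fun ω => continuous_AA (hX.cont ω), meas_AA_GG hX, fun ω => ?_, fun ω => ?_, fun t ω => ?_,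
    isQV_X hX, isQV_N hX, ae_not_ac hX⟩
  · exact aug_le_aug ((res_le_Phi t).trans (le_eventuallyMeasurableSpace))
  · simp [AA]
  · refine ⟨fun t => (t : ℝ), fun t => 2 * (hh (path X ω) 0 - hh (path X ω) t),
      fun a b h => by exact_mod_cast h, fun a b h => ?_, fun t => ?_⟩
    · have := hh_antitone (hX.cont ω) h
      simp only
      linarith
    · simp only [AA]
      ring
  · simp only [NN]
    show X t ω = path X ω t - AA (path X ω) t + AA (path X ω) t
    rw [sub_add_cancel]
    rfl

end Pool.Agent.Results.MP_e3daee_pr.NotRegular
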